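import Mathlib

namespace Pool.Agent.Results.MP_4db40a_lc.Sep

/-- `w` is a word over the alphabet `U`. -/
def Over (U : Finset ℕ) (w : List ℕ) : Prop := ∀ a ∈ w, a ∈ U

/-- `S` is an ordered language over `U`. -/
def ORD (U : Finset ℕ) (S : Set (List ℕ)) : Prop :=
  (∀ w ∈ S, Over U w) ∧ ∃ (Z : Type) (_ : Fintype Z) (_ : LinearOrder Z) (z₀ : Z) (F : Set Z)
    (δ : Z → ℕ → Z), (∀ a ∈ U, Monotone fun z => δ z a) ∧
      ∀ w, Over U w → (w ∈ S ↔ w.foldl δ z₀ ∈ F)

/-- `S` is a strictly locally `k`-testable language over `U`. -/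
def SLT (k : ℕ) (U : Finset ℕ) (S : Set (List ℕ)) : Prop :=
  (∀ w ∈ S, Over U w) ∧ ∃ B I E : Set (List ℕ),
    (∀ x ∈ B ∪ I ∪ E, Over U x ∧ x.length = k) ∧ ∀ w, Over U w → k ≤ w.length →
      (w ∈ S ↔ w.take k ∈ B ∧ w.drop (w.length - k) ∈ E ∧
        ∀ j, 1 ≤ j → j + k + 1 ≤ w.length → (w.drop j).take k ∈ I)

/-- One external derivation step. -/
def Step (P : Set (Set (List ℕ) × Finset (List ℕ × List ℕ))) (x y : List ℕ) : Prop :=
  ∃ p ∈ P, x ∈ p.1 ∧ ∃ c ∈ p.2, y = c.1 ++ x ++ c.2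

/-- `L` is generated externally by a contextual grammar with selection languages in `𝔏`. -/
def EC (𝔏 : Finset ℕ → Set (List ℕ) → Prop) (L : Set (List ℕ)) : Prop :=
  ∃ (V : Finset ℕ) (A : Finset (List ℕ)) (P : Set (Set (List ℕ) × Finset (List ℕ × List ℕ))),
    P.Finite ∧ (∀ w ∈ A, Over V w) ∧
    (∀ p ∈ P, (∃ U ⊆ V, 𝔏 U p.1) ∧ ∀ c ∈ p.2, Over V c.1 ∧ Over V c.2) ∧
    L = {w | ∃ a ∈ A, Relation.ReflTransGen (Step P) a w}

abbrev T : Finset ℕ := Finset.range 3

inductive Path : ℕ → List ℕ → ℕ → Prop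
  | nil (s) : Path s [] s
  | cons {s x y t} : x ≠ s → x < 3 → Path x y t → Path s (x :: y) t

lemma Path.over {s y t} (h : Path s y t) : Over T y := by
  induction h with
  | nil => simp [Over]
  | cons _ h _ ih => intro a ha; rcases List.mem_cons.1 ha with rfl | ha; exacts [by simpa, ih a ha]

lemma Path.app {s y t z u} (h : Path s y t) (h' : Path t z u) : Path s (y ++ z) u := by
  induction h with
  | nil => exact h'
  | cons a b _ ih => exact .cons a b (ih h')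

lemma Path.split {s y z u} (h : Path s (y ++ z) u) : ∃ t, Path s y t ∧ Path t z u := by
  induction y generalizing s with
  | nil => exact ⟨s, .nil s, h⟩
  | cons x y ih =>
    cases h with
    | cons a b h => obtain ⟨t, h1, h2⟩ := ih h; exact ⟨t, .cons a b h1, h2⟩

lemma Path.det {s y t t'} (h : Path s y t) (h' : Path s y t') : t = t' := by
  induction h with
  | nil => cases h'; rfl
  | cons _ _ _ ih => cases h' with | cons _ _ h => exact ih h

lemma conn (s : ℕ) {t : ℕ} (ht : t < 3) : ∃ v, Path s v t ∧ (s ≠ t → t ∈ v) := by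
  by_cases h : t = s
  · exact ⟨[], h ▸ .nil _, fun h' => absurd h.symm h'⟩
  · exact ⟨[t], .cons h ht (.nil _), fun _ => by simp⟩

lemma long (s n : ℕ) : ∃ y t, Path s y t ∧ t < 3 ∧ n ≤ y.length := by
  induction n generalizing s with
  | zero => obtain ⟨v, h, -⟩ := conn s (show 0 < 3 by norm_num); exact ⟨v, 0, h, by norm_num, by simp⟩
  | succ n ih =>
    obtain ⟨y, t, h1, h2, h3⟩ := ih ((s + 1) % 3)
    exact ⟨_, t, .cons (by omega) (by omega) h1, h2, by simpa⟩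

lemma over_app {U x y} : Over U (x ++ y) ↔ Over U x ∧ Over U y := by
  simp only [Over, List.mem_append]
  exact ⟨fun h => ⟨fun a b => h a (.inl b), fun a b => h a (.inr b)⟩,
    fun h a b => b.elim (h.1 a) (h.2 a)⟩

lemma core {Z : Type} [Fintype Z] [LinearOrder Z] (F : Set Z) (δ : Z → ℕ → Z)
    (hm : ∀ a ∈ T, Monotone fun z => δ z a) (z₀ : Z) (s₀ : ℕ)
    (h : ∀ y, Over T y → ((∃ y', Over T y' ∧ (y ++ y').foldl δ z₀ ∈ F) ↔ ∃ t, Path s₀ y t)) :
    False := by
  classical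
  have mono : ∀ y, Over T y → Monotone fun z => y.foldl δ z := by
    intro y hy
    induction y with
    | nil => exact monotone_id
    | cons x y ih =>
      exact (ih fun a ha => hy a (List.mem_cons_of_mem _ ha)).comp (hm x (hy x (by simp)))
  have mn : ∀ X : Set Z, X.Nonempty → ∃ m ∈ X, ∀ z ∈ X, m ≤ z := fun X hX =>
    Set.exists_min_image X id X.toFinite hX
  have mx : ∀ X : Set Z, X.Nonempty → ∃ m ∈ X, ∀ z ∈ X, z ≤ m := fun X hX =>
    Set.exists_max_image X id X.toFinite hX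
  obtain ⟨_, ⟨w0, hw0, rfl⟩, hmin⟩ := mn {z | ∃ w, Path s₀ w 0 ∧ z = w.foldl δ z₀}
    (by obtain ⟨v, h, -⟩ := conn s₀ (show 0 < 3 by norm_num); exact ⟨_, v, h, rfl⟩)
  obtain ⟨_, ⟨u0, hu0, rfl⟩, hmax⟩ := mx {z | ∃ u, Path 0 u 0 ∧ z = (w0 ++ u).foldl δ z₀}
    ⟨_, [], .nil 0, rfl⟩
  have ret : ∀ u, Path 0 u 0 → (w0 ++ u0 ++ u ++ u0).foldl δ z₀ = (w0 ++ u0).foldl δ z₀ := by
    intro u hu
    apply le_antisymm
    · exact hmax _ ⟨u0 ++ u ++ u0, (hu0.app hu).app hu0, by simp⟩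
    · rw [List.foldl_append, List.foldl_append (l := w0 ++ u0 ++ u)]
      exact mono u0 hu0.over (hmin _ ⟨_, (hw0.app hu0).app hu, rfl⟩)
  obtain ⟨_, ⟨u1, a, ha, hu1, rfl⟩, h1⟩ :=
    mn {z | ∃ u t, t < 3 ∧ Path 0 u t ∧ z = (w0 ++ u0 ++ u).foldl δ z₀}
      ⟨_, [], 0, by norm_num, .nil 0, rfl⟩
  obtain ⟨_, ⟨u2, b, hb, hu2, rfl⟩, h2⟩ :=
    mx {z | ∃ u t, t < 3 ∧ Path 0 u t ∧ z = (w0 ++ u0 ++ u).foldl δ z₀}
      ⟨_, [], 0, by norm_num, .nil 0, rfl⟩
  obtain ⟨x, hx, hxa, hxb⟩ : ∃ x < 3, x ≠ a ∧ x ≠ b := by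
    by_cases h0 : a ≠ 0 ∧ b ≠ 0
    · exact ⟨0, by omega⟩
    by_cases h1 : a ≠ 1 ∧ b ≠ 1
    · exact ⟨1, by omega⟩
    · exact ⟨2, by omega⟩
  obtain ⟨u3, hu3, -⟩ := conn 0 hx
  obtain ⟨v, hv, -⟩ := conn x (show 0 < 3 by norm_num)
  have hy : Over T (x :: v ++ u0) := ((Path.cons hxa hx hv).app hu0).over
  have e1 := ret _ (hu1.app (.cons hxa hx hv))
  have e2 := ret _ (hu2.app (.cons hxb hx hv))
  have l1 := mono _ hy (h1 _ ⟨u3, x, hx, hu3, rfl⟩)
  have l2 := mono _ hy (h2 _ ⟨u3, x, hx, hu3, rfl⟩)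
  simp only [← List.foldl_append, List.append_assoc] at e1 e2 l1 l2
  rw [e1] at l1
  rw [e2] at l2
  obtain ⟨y', hy', hF⟩ := (h _ (hw0.app hu0).over).2 ⟨0, hw0.app hu0⟩
  have p3 := (hw0.app hu0).app hu3
  obtain ⟨t, ht⟩ := (h (w0 ++ u0 ++ u3 ++ (x :: v ++ u0)) (over_app.2 ⟨p3.over, hy⟩)).1
    ⟨y', hy', by
      rw [List.foldl_append] at hF ⊢
      simp only [List.append_assoc]
      rwa [le_antisymm l2 l1]⟩
  obtain ⟨t', q1, q2⟩ := ht.split
  rw [q1.det p3] at q2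
  cases q2 with | cons q _ _ => exact q rfl

def S : Set (List ℕ) := {w | ∃ t, Path 3 w t}
def L : Set (List ℕ) := {w | Over T w} ∪ {x | ∃ w ∈ S, x = 3 :: w ++ [3]}

lemma path_iff (s : ℕ) (w : List ℕ) (hw : Over T w) :
    (∃ t, Path s w t) ↔ List.IsChain (· ≠ ·) (s :: w) := by
  induction w generalizing s with
  | nil => simpa using ⟨s, .nil s⟩
  | cons x w ih =>
    rw [List.isChain_cons_cons, ← ih x fun a ha => hw a (List.mem_cons_of_mem _ ha)]
    constructor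
    · rintro ⟨t, h⟩
      cases h with | cons a _ h => exact ⟨a.symm, t, h⟩
    · rintro ⟨a, t, h⟩
      exact ⟨t, .cons a.symm (by simpa using hw x (by simp)) h⟩

lemma slt_S : SLT 2 T S := by
  set D : Set (List ℕ) := {x | ∃ a b, a ∈ T ∧ b ∈ T ∧ a ≠ b ∧ x = [a, b]} with hD
  refine ⟨fun w ⟨_, h⟩ => h.over, D, D, D, ?_, fun w hw hl => ?_⟩
  · simp only [Set.union_self]
    rintro _ ⟨a, b, ha, hb, -, rfl⟩
    exact ⟨by simp only [Over, List.mem_cons]; rintro c (rfl | rfl | h) <;> simp_all, rfl⟩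
  have k : ∀ j (h : j + 1 < w.length), (w.drop j).take 2 ∈ D ↔ w[j] ≠ w[j + 1] := by
    intro j h
    have e : (w.drop j).take 2 = [w[j], w[j + 1]] := by
      rw [List.drop_eq_getElem_cons (by omega), List.drop_eq_getElem_cons h]; rfl
    rw [e]
    refine ⟨?_, fun h => ⟨_, _, hw _ (by simp), hw _ (by simp), h, rfl⟩⟩
    rintro ⟨a, b, -, -, h1, h2⟩
    simp only [List.cons.injEq, and_true] at h2
    rwa [h2.1, h2.2]
  have c : w ∈ S ↔ ∀ j (h : j + 1 < w.length), w[j] ≠ w[j + 1] := by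
    rw [S, Set.mem_ofPred, path_iff 3 w hw, ← List.isChain_iff_getElem]
    obtain ⟨x, w, rfl⟩ := List.exists_cons_of_length_pos (show 0 < w.length by omega)
    have := hw x (by simp)
    rw [List.isChain_cons_cons, and_iff_right (by simp at this; omega)]
  have e : w.drop (w.length - 2) = (w.drop (w.length - 2)).take 2 :=
    (List.take_of_length_le (by simp; omega)).symm
  rw [c, e, k _ (by omega), show w.take 2 = (w.drop 0).take 2 from rfl, k _ (by omega)]
  refine ⟨fun h => ⟨h _ _, h _ _, fun j _ h2 => (k j (by omega)).2 (h _ _)⟩, ?_⟩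
  rintro ⟨h1, h2, h3⟩ j hj
  by_cases a : j = 0
  · subst a; exact h1
  by_cases b : j = w.length - 2
  · subst b; exact h2
  exact (k j hj).1 (h3 j (by omega) (by omega))

lemma ec_slt : EC (SLT 2) L := by
  refine ⟨Finset.range 4, {[]}, {({w | Over T w}, {([0], []), ([1], []), ([2], [])}),
    (S, {([3], [3])})}, Set.toFinite _, by simp [Over], ?_, ?_⟩
  · rintro p (rfl | rfl)
    · refine ⟨⟨T, by decide, fun w h => h, {x | Over T x ∧ x.length = 2},
        {x | Over T x ∧ x.length = 2}, {x | Over T x ∧ x.length = 2}, by simp, ?_⟩,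
        by simp [Over]⟩
      intro w hw hl
      refine iff_of_true hw ⟨⟨fun a h => hw a (List.mem_of_mem_take h), by simp; omega⟩,
        ⟨fun a h => hw a (List.mem_of_mem_drop h), by simp; omega⟩, fun j _ h =>
        ⟨fun a h => hw a (List.mem_of_mem_drop (List.mem_of_mem_take h)), by simp; omega⟩⟩
    · exact ⟨⟨T, by decide, slt_S⟩, by simp [Over]⟩
  · ext w
    simp only [Finset.mem_singleton, exists_eq_left, Set.mem_ofPred]
    have a : ∀ w, Over T w → Relation.ReflTransGen (Step {({w | Over T w},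
        {([0], []), ([1], []), ([2], [])}), (S, {([3], [3])})}) [] w := by
      intro w hw
      induction w with
      | nil => rfl
      | cons x w ih =>
        have h := fun a ha => hw a (List.mem_cons_of_mem _ ha)
        have hx := hw x (by simp)
        refine (ih h).tail ⟨_, Or.inl rfl, h, ([x], []), ?_, by simp⟩
        simp at hx ⊢; omega
    constructor
    · rintro (h | ⟨w, ⟨t, h⟩, rfl⟩)
      · exact a w h
      · exact (a w h.over).tail ⟨_, Or.inr rfl, ⟨t, h⟩, ([3], [3]), by simp, by simp⟩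
    · intro h
      induction h with
      | refl => exact Or.inl (by simp [Over])
      | tail _ h _ =>
        obtain ⟨p, rfl | rfl, h1, c, hc, rfl⟩ := h
        · left
          simp only [Finset.mem_insert, Finset.mem_singleton] at hc
          refine over_app.2 ⟨over_app.2 ⟨?_, h1⟩, ?_⟩ <;> rcases hc with rfl | rfl | rfl <;>
            simp [Over]
        · rw [Finset.mem_singleton.1 hc]
          exact Or.inr ⟨_, h1, by simp⟩

lemma baire {ι : Type} (J : Set ι) (hJ : J.Finite) (C : ι → List ℕ → Prop)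
    (h : ∀ j ∈ J, ∀ w ∈ S, ∃ y, w ++ y ∈ S ∧ ∀ y', w ++ y ++ y' ∈ S → ¬ C j (w ++ y ++ y')) :
    ∃ w ∈ S, ∀ j ∈ J, ∀ y', w ++ y' ∈ S → ¬ C j (w ++ y') := by
  induction J, hJ using Set.Finite.induction_on with
  | empty => exact ⟨[], ⟨3, .nil 3⟩, by simp⟩
  | insert _ _ ih =>
    obtain ⟨w, hw, h1⟩ := ih fun j hj => h j (Or.inr hj)
    obtain ⟨y, hy, h2⟩ := h _ (Or.inl rfl) w hw
    refine ⟨w ++ y, hy, ?_⟩
    rintro j (rfl | hj) y' hy'
    · exact h2 y' hy'
    · rw [List.append_assoc] at hy' ⊢; exact h1 j hj _ hy'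

lemma no3 {w : List ℕ} (h : Over T w) : 3 ∉ w := fun h' => by simpa using h 3 h'

theorem result : ∃ L : Set (List ℕ), EC (SLT 2) L ∧ ¬ EC ORD L := by
  refine ⟨L, ec_slt, ?_⟩
  rintro ⟨V, A, P, hP, -, hsel, hL⟩
  have closed : ∀ x ∈ L, ∀ y, Step P x y → y ∈ L := by
    rw [hL]
    rintro x ⟨a, ha, h⟩ y hy
    exact ⟨a, ha, h.tail hy⟩
  have last : ∀ y ∈ L, y ∈ A ∨ ∃ p ∈ P, ∃ c ∈ p.2, ∃ x ∈ p.1, x ∈ L ∧ y = c.1 ++ x ++ c.2 ∧
      y ≠ x := by
    rw [hL]
    rintro y ⟨a, ha, h⟩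
    induction h with
    | refl => exact Or.inl ha
    | @tail x y h1 h2 ih =>
      by_cases e : y = x
      · exact e ▸ ih
      · obtain ⟨p, hp, hx, c, hc, e'⟩ := h2
        exact Or.inr ⟨p, hp, c, hc, x, hx, ⟨a, ha, h1⟩, e', e⟩
  set J : Set ((Set (List ℕ) × Finset (List ℕ × List ℕ)) × List ℕ × List ℕ) :=
    {j | j.1 ∈ P ∧ j.2 ∈ j.1.2}
  have hJ : J.Finite := (hP.prod (hP.biUnion fun p _ => p.2.finite_toSet)).subset
    fun j hj => ⟨hj.1, Set.mem_biUnion hj.1 hj.2⟩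
  have dense := mt (baire J hJ fun j w =>
    ∃ x ∈ j.1.1, Over T x ∧ 3 :: w ++ [3] = j.2.1 ++ x ++ j.2.2) (by
    rintro ⟨w, ⟨s, hw⟩, h⟩
    obtain ⟨y, t, hy, -, hl⟩ := long s (A.sup List.length)
    have m : w ++ y ∈ S := ⟨t, hw.app hy⟩
    rcases last _ (Or.inr ⟨_, m, rfl⟩) with h1 | ⟨p, hp, c, hc, x, hx, h1 | ⟨w', ⟨_, h1⟩, rfl⟩, e, ne⟩
    · have := Finset.le_sup (f := List.length) h1
      simp only [List.length_append, List.length_cons] at this
      omega
    · exact h (p, c) ⟨hp, hc⟩ y m ⟨x, hx, h1, e⟩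
    · have k := congrArg (List.count 3) e
      have k1 := List.count_eq_zero.2 (no3 (hw.app hy).over)
      have k2 := List.count_eq_zero.2 (no3 h1.over)
      simp only [List.count_append, List.count_cons_self, List.count_nil, List.cons_append] at k k1
      have k3 : 3 ∉ c.1 := List.count_eq_zero.1 (by omega)
      have k4 : 3 ∉ c.2 := List.count_eq_zero.1 (by omega)
      have k5 : c.1 = [] := by
        rcases hc1 : c.1 with _ | ⟨a, l⟩
        · rfl
        · rw [hc1] at e k3; simp at e k3; exact absurd e.1 k3.1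
      have k6 : c.2 = [] := by
        rcases List.eq_nil_or_concat c.2 with h | ⟨l, a, h⟩
        · exact h
        · rw [h, List.concat_eq_append] at e k4
          rw [← List.append_assoc] at e
          have := (List.append_inj' e rfl).2
          simp at this k4; exact absurd this k4.2
      rw [k5, k6] at e
      exact ne (by simpa using e))
  push Not at dense
  obtain ⟨⟨p, c1, c2⟩, ⟨hp, hc⟩, w, ⟨s, hw⟩, hd⟩ := dense
  obtain ⟨⟨U, -, hU, Z, _, _, z₀, F, δ, hm, hacc⟩, -⟩ := hsel p hp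
  obtain ⟨y0, s0, hy0, -, hl⟩ := long s c1.length
  have hw0 := hw.app hy0
  have up : ∀ y t, Path s0 y t → ∃ y'', Over T ((3 :: (w ++ y0)).drop c1.length ++ y ++ y'') ∧
      (3 :: (w ++ y0)).drop c1.length ++ y ++ y'' ∈ p.1 ∧ c1 <+: 3 :: (w ++ y0) := by
    intro y t hy
    obtain ⟨y1, t1, hy1, -, hl1⟩ := long t c2.length
    obtain ⟨y', -, x, hx, ho, e⟩ := hd (y0 ++ y ++ y1) ⟨t1, by
      simpa using (hw0.app hy).app hy1⟩
    simp only at e hx
    have e1 : (3 :: (w ++ y0)) ++ (y ++ (y1 ++ y' ++ [3])) = c1 ++ (x ++ c2) := by simpa using e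
    obtain ⟨w1, e2⟩ : c1 <+: 3 :: (w ++ y0) := List.prefix_of_prefix_length_le
      (List.prefix_append _ _) (e1 ▸ List.prefix_append _ _) (by simp; omega)
    obtain ⟨y'', e3⟩ : c2 <:+ y1 ++ y' ++ [3] := List.suffix_of_suffix_length_le
      ((List.suffix_append _ _).trans (List.suffix_append c1 _))
      (e1 ▸ (List.suffix_append _ _).trans (List.suffix_append _ _)) (by simp; omega)
    rw [← e2, ← e3, List.append_assoc, List.append_cancel_left_eq, ← List.append_assoc,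
      ← List.append_assoc, List.append_cancel_right_eq] at e1
    refine ⟨y'', ?_, ?_, ⟨w1, e2⟩⟩ <;> rw [← e2, List.drop_left, e1]
    exacts [ho, hx]
  have hTU : ∀ y, Over T y → Over U y := by
    intro y hy a ha
    have ha3 : a < 3 := by simpa using hy a ha
    obtain ⟨v, hv, -⟩ := conn s0 (show (a + 1) % 3 < 3 by omega)
    obtain ⟨y'', -, h, -⟩ := up _ _ (hv.app (.cons (by omega) ha3 (.nil a)))
    exact hU _ h a (by simp)
  obtain ⟨y2, o2, -, w1, e⟩ := up [] s0 (.nil _)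
  rw [← e, List.drop_left] at up o2
  have o1 : Over T w1 := (over_app.1 (over_app.1 o2).1).1
  refine core F δ (fun a ha => hm a (hTU [a] (by simpa [Over] using ha) a (by simp)))
    (w1.foldl δ z₀) s0 fun y hy => ⟨?_, ?_⟩
  · rintro ⟨y', hy', hF⟩
    rw [← List.foldl_append] at hF
    have o3 := over_app.2 ⟨o1, over_app.2 ⟨hy, hy'⟩⟩
    have m := closed _ (Or.inl o3) _ ⟨p, hp, (hacc _ (hTU _ o3)).2 hF, (c1, c2), hc, rfl⟩
    simp only [← List.append_assoc, e] at m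
    rcases m with m | ⟨w', ⟨t', h1⟩, m⟩
    · exact absurd (by simp) (no3 m)
    · have m' : w ++ y0 ++ y <+: w' ++ [3] := ⟨y' ++ c2, by simpa using m⟩
      rcases List.prefix_concat_iff.1 m' with m | ⟨r, m⟩
      · exact absurd (m ▸ by simp) (no3 (over_app.2 ⟨hw0.over, hy⟩))
      · rw [← m] at h1
        obtain ⟨t2, h2, -⟩ := h1.split
        obtain ⟨t3, h3, h4⟩ := h2.split
        exact ⟨t2, h3.det hw0 ▸ h4⟩
  · rintro ⟨t, ht⟩
    obtain ⟨y'', o, h, -⟩ := up y t ht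
    refine ⟨y'', (over_app.1 o).2, ?_⟩
    rw [← List.foldl_append, ← List.append_assoc]
    exact (hacc _ (hU _ h)).1 h

end Pool.Agent.Results.MP_4db40a_lc.Sep
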